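import Mathlib
import Pool.Agent.Lib.MP_8152b2_gt.Transport

/-!
Rationality of the closure condition of mixed circle-segment chains: for every closure sequence
`w` the set `Z_w` is the zero set of a polynomial among the admissible triples.
-/

namespace Pool.Agent.Results.MP_8152b2_gt.ClosureLocus

open MixedChains

/-- For every closure sequence `w` there is a polynomial `f` in `R, r, d` with real coefficients
(in particular a rational function) such that, for admissible `(R, r, d)`, the chain for `w`
closes in the annuli with these parameters if and only if `f(R, r, d) = 0`.

`IsClosureSequence` is the weakest reading of the definition (from every initial link some chain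
closes); `MixedChains.isClosureSequence_of_strong` shows that the reading in which every chain
must close is a special case. -/
theorem result (n : ℕ) [NeZero n] (w : Fin n → Letter) (hw : IsClosureSequence w) :
    ∃ f : MvPolynomial (Fin 3) ℝ, ∀ R r d : ℝ, Admissible R r d →
      (ClosureLocus w R r d ↔ MvPolynomial.eval ![R, r, d] f = 0) :=
  main w hw

end Pool.Agent.Results.MP_8152b2_gt.ClosureLocus
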